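import Pool.Agent.Q59.TR.IdTop

/-!
# The strong monodromy conjecture for topological zeta functions of ideals: reduction to ideals
generated by polynomials of degree at most one and by polynomials `z - x y`

Let `I = (f_1, …, f_r) ⊂ ℂ[x_1, …, x_n]`. The new variables `V_w` are the words `w` in the letters
`1, …, n` of length between `2` and the largest degree of the `f_j`, together with copies `c_j` of the
`x_j`; the relations are `l_w = V_{i w} - V_w c_i` and `c_j - x_j`. Modulo the relations `f_j` is equal to a
polynomial `λ_j` of degree at most one in the variables `x`, `V`. There is an automorphism `θ` of the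
polynomial ring in all the variables with `θ(x_j) = x_j` which takes the `κ` new variables to the
relations; so it takes the ideal `(f_1, …, f_r, z_1, …, z_κ)` to `J = (λ_1, …, λ_r, l_1, …, l_κ)`. The
generators of `J` are of degree at most one, or of the form `x_a - x_b x_c` with `x_b`, `x_c` in two
different groups of variables; in particular they are bilinear (of degree at most one in each of the
two groups, if `x_a` is in one of the two groups), and of degree at most two.

* The topological zeta functions satisfy `Z_J(s) = κ / (s + κ) + s / (s + κ) * Z_I(s + κ)`. (Proof: the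
  generating series of the volumes of `{ord ≥ N}` for `(f_j, z_i)` is the one of `(f_j)` with `T`
  replaced by `𝕃 ^ (-κ) T`.) So a pole `s₀` of `Z_I` gives the pole `s₀ - κ` of `Z_J`, and if
  `b(s + κ) Z_J` is a polynomial, so is `b(s) Z_I`.
* A functional equation of the generators `f_j` with `b(s)` gives one of the generators of `J` with
  `b(s + κ)`. (Proof: a functional equation of `(f_j)` with `b` is the same as one of `∑ u_j f_j` with
  `(s + 1) b` (Mustata), and `∑ u_j λ_j + ∑ y_i l_i` is, up to an automorphism of the polynomial ring, the sum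
  of `∑ u_j f_j` and `∑ y_i z_i`.)

So both questions of the problem, for all nonzero proper ideals, are equivalent to their cases for the
ideals of this form.

The topological zeta function is defined as by Denef and Loeser, from the motivic zeta function
`Z_mot(T) = ∑_d [X_d] 𝕃 ^ (-n d) T ^ d` in `𝓜[[T]]`, `X_d` the set of the `d`-jets on which the ideal
has the order `d` (`zetaId f`), `𝓜` the Grothendieck ring of complex varieties, localised at `𝕃`:
`Z_top(s) = χ(Z_mot(𝕃 ^ (-s)))` for `s = 1, 2, 3, …`. For this, let `E` be a homomorphism from `𝓜` to a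
domain `R` with `E(𝕃) ≠ 1`, such as the Hodge-Deligne polynomial `E(u, v)`, and `ε` a homomorphism from
`R` to `ℂ` with `ε(E(𝕃)) = 1`, such as `u, v ↦ 1`, so that `ε ∘ E` is the Euler characteristic `χ`
(`IsTopZeta`). No resolution of singularities is used.
-/

set_option autoImplicit false

namespace Pool.Agent.Results.MP_ee8c61_ag.BilinearIdeals

open MvPolynomial Pool.Agent.W375.MG Pool.Agent.W428.MOT Pool.Agent.W574.SM Pool.Agent.TH192.MU

/-- The conjecture of the first question for the ideal `I = (f_1, …, f_r)`: every pole of the topological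
zeta function of `I` is a root of every polynomial `b` with a functional equation of `f_1, …, f_r` as in
the definition of the Bernstein-Sato polynomial `b_I` (`IsFunctionalEq`). -/
def PolesAreRoots {R : Type} [CommRing R] (E : MK ℂ →+* R) (ε : R →+* ℂ) {n r : ℕ}
    (f : Fin r → MvPolynomial (Fin n) ℂ) : Prop :=
  ∀ Z : RatFunc ℂ, IsTopZeta E ε (zetaId f) Z → ∀ s₀ : ℂ, Z.denom.eval s₀ = 0 →
    ∀ b : Polynomial ℂ, IsFunctionalEq f b → b.eval s₀ = 0

/-- The conjecture of the second question for the ideal `I = (f_1, …, f_r)`: `b(s) Z_I(s)` is a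
polynomial, for the same `b`. -/
def ProductIsPolynomial {R : Type} [CommRing R] (E : MK ℂ →+* R) (ε : R →+* ℂ) {n r : ℕ}
    (f : Fin r → MvPolynomial (Fin n) ℂ) : Prop :=
  ∀ Z : RatFunc ℂ, IsTopZeta E ε (zetaId f) Z → ∀ b : Polynomial ℂ, IsFunctionalEq f b →
    ∃ P : Polynomial ℂ, algebraMap (Polynomial ℂ) (RatFunc ℂ) b * Z =
      algebraMap (Polynomial ℂ) (RatFunc ℂ) P

/-- The ideal generated by `f_1, …, f_r` is nonzero and proper. -/
def NonzeroProper {n r : ℕ} (f : Fin r → MvPolynomial (Fin n) ℂ) : Prop :=
  (∃ j, f j ≠ 0) ∧ Ideal.span (Set.range f) ≠ ⊤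

/-- Every `f_j` is of degree at most one, or it is `x_a - x_b x_c` for variables `x_a`, `x_b`, `x_c`, where
`x_b` is in the first and `x_c` in the second of two groups of variables. -/
def BilinearForm {n r : ℕ} (f : Fin r → MvPolynomial (Fin n) ℂ) : Prop :=
  ∃ col : Fin n → Fin 2, ∀ j, (f j).totalDegree ≤ 1 ∨
    ∃ a b c : Fin n, col b = 0 ∧ col c = 1 ∧ f j = X a - X b * X c

/-- **Reduction of the strong monodromy conjecture for topological zeta functions of ideals to ideals
generated by polynomials of degree at most one and by polynomials `z - x y`.** -/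
theorem result (R : Type) [CommRing R] [IsDomain R] (E : MK ℂ →+* R) (ε : R →+* ℂ)
    (hε : ε (E ((Lu ℂ : (MK ℂ)ˣ) : MK ℂ)) = 1) (hE : E ((Lu ℂ : (MK ℂ)ˣ) : MK ℂ) ≠ 1) :
    ((∀ (n r : ℕ) (f : Fin r → MvPolynomial (Fin n) ℂ), NonzeroProper f →
        PolesAreRoots E ε f) ↔
      ∀ (n r : ℕ) (f : Fin r → MvPolynomial (Fin n) ℂ), NonzeroProper f → BilinearForm f →
        PolesAreRoots E ε f) ∧
    ((∀ (n r : ℕ) (f : Fin r → MvPolynomial (Fin n) ℂ), NonzeroProper f →
        ProductIsPolynomial E ε f) ↔
      ∀ (n r : ℕ) (f : Fin r → MvPolynomial (Fin n) ℂ), NonzeroProper f → BilinearForm f →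
        ProductIsPolynomial E ε f) := by
  refine ⟨⟨fun h n r f hf _ => h n r f hf, fun h n r f hf => ?_⟩,
    ⟨fun h n r f hf _ => h n r f hf, fun h n r f hf => ?_⟩⟩
  · obtain ⟨m, q, g, hB, h0, hp, h1, -⟩ := Pool.Agent.Q59.TR.Id.transfer hε hE f hf.1 hf.2
    exact h1 (h m q g ⟨h0, hp⟩ hB)
  · obtain ⟨m, q, g, hB, h0, hp, -, h1⟩ := Pool.Agent.Q59.TR.Id.transfer hε hE f hf.1 hf.2
    exact h1 (h m q g ⟨h0, hp⟩ hB)

end Pool.Agent.Results.MP_ee8c61_ag.BilinearIdeals
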