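import Pool.Agent.Y230.TH.TopFin

/-!
# The strong monodromy conjecture for sums and products of ideals

We prove that every pole of the topological zeta function `Z_I` is a root of the Bernstein-Sato
polynomial `b_I` for the ideals `I` in the following class, which is closed under sums and products
in disjoint sets of variables.

Let `𝓘` and `𝓗` be the least classes of ideals and of hypersurfaces with the following properties.

* `𝓘` contains the powers `(x ^ m)`; all non-zero ideals of `ℂ[x, y]`; the ideals of
  `ℂ[x₀, x₁, x₂]` generated by forms of the same degree, three of which are algebraically independent;
  the ideals generated by forms of the same degree without a common zero outside the origin; the ideals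
  whose numerical data come from Rees divisors; the ideals `(f_1, …, f_k)` in any number of variables
  with very general coefficients at the vertices of the Newton polytopes of the `f_i` and arbitrary
  other coefficients; the principal ideals `(h)` with `h` in `𝓗`; and `𝓘` is closed under sums
  `I + J` and products `I J` in disjoint sets of variables.
* `𝓗` contains all plane curves and the polynomials with very general coefficients at the
  vertices of the Newton polytope and arbitrary other terms; for `(f_j)` in `𝓘` and `g` in `𝓗` it
  contains `∑ y_j f_j(x)` and `∑ y_j f_j(x) + g(z)`, with new variables `y_j`; and `𝓗` is closed
  under products in disjoint sets of variables and under dropping variables which do not occur.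

For example, for ideals `I_k, J_k ⊂ ℂ[x_k, y_k]`, `k = 1, …, m`, in different variables, all the ideals
`∏_k I_k`, `∑_k I_k`, `∑_k I_k J_k'`, … which are obtained by sums and products of factors in disjoint sets
of variables, in any order. The starting results of this problem treat the members of the list one by
one; ThomSebastianiGlobal of MP_504089 is about the hypersurfaces in `𝓗`.

Method. For the sum `I + J` in disjoint sets of variables, the volumes of the arcs with
`ord (I + J) ≥ e` are the products of those of `I` and `J`; so `Z_(I + J)` is obtained from `Z_I` and `Z_J`
by a product of exponential polynomials (see `TT.sum`), and its poles are sums `α + β` of poles. On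
the other side, if `α` and `β` are roots of `b_I` and `b_J` which are forced by the functional equations
with coefficients `B(x, s)`, then `α + β` is a root of `b_(I + J)`.
-/

set_option autoImplicit false

namespace Pool.Agent.Results.MP_ee8c61_ag.SumsAndProducts

open MvPolynomial Pool.Agent.W574.SM Pool.Agent.W574.RO
  Pool.Agent.Y229 Pool.Agent.Y228.AT Pool.Agent.Y230.TH

/-- **The strong monodromy conjecture for sums and products of ideals (Q1).** Let
`TT AllGlobal StrongHyp c A Z` be the classes of ideals (`c = false`; the ideal is generated by the
family `A.f`) and of hypersurfaces (`c = true`) with their global topological zeta functions `Z` which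
are obtained from the ideals in `AllGlobal` and the hypersurfaces in `StrongHyp` by sums and products
in disjoint sets of variables, by `∑ y_j f_j(x)` and by `∑ y_j f_j(x) + g(z)`. If the ideal generated by
the family `A.f` is in the class, with the zeta function `Z`, and if `b` is a polynomial with a
functional equation of Budur, Mustata and Saito for `A.f` (`IsFunctionalEq`), such as the
Bernstein-Sato polynomial of the ideal, then `b(s₀) = 0` for every pole `s₀` of `Z`. -/
theorem result (A : Fam) (Z : RatFunc ℂ) (h : TT AllGlobal StrongHyp false A Z)
    (b : Polynomial ℂ) (hb : IsFunctionalEq A.f b) (s₀ : ℂ) (hs : Z.denom.eval s₀ = 0) :
    b.eval s₀ = 0 :=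
  tt_ideal A Z h b hb s₀ hs

end Pool.Agent.Results.MP_ee8c61_ag.SumsAndProducts
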